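import Mathlib

set_option autoImplicit false

open MeasureTheory Metric Set
open scoped ENNReal Pointwise RealInnerProductSpace

namespace Pool.Agent.Results.MP_1453e0_an.KConvexVsMM

/-- `ℝⁿ` with its Euclidean structure. -/
abbrev Eu (n : ℕ) := EuclideanSpace ℝ (Fin n)

/-- Symmetric convex bodies in `ℝⁿ`: compact convex sets with nonempty interior and `K = -K`. -/
structure IsSymBody {n : ℕ} (K : Set (Eu n)) : Prop where
  convex : Convex ℝ K
  isCompact : IsCompact K
  interior_nonempty : (interior K).Nonempty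
  neg_mem : ∀ x ∈ K, -x ∈ K

/-- The polar body `K° = {y | ⟪x, y⟫ ≤ 1 for all x ∈ K}`. -/
def polarBody {n : ℕ} (K : Set (Eu n)) : Set (Eu n) := {y | ∀ x ∈ K, ⟪x, y⟫ ≤ 1}

/-- `M(K)`: the mean of the norm `‖x‖_K = gauge K x` over the Euclidean unit sphere with respect to
the normalised surface measure (`⨍` is the mean value integral; `volume.toSphere` is the surface
measure). -/
noncomputable def meanNorm {n : ℕ} (K : Set (Eu n)) : ℝ :=
  ⨍ x : sphere (0 : Eu n) 1, gauge K (x : Eu n) ∂((volume : Measure (Eu n)).toSphere)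

/-- The product `MM*(K) = min_T M(TK) M((TK)°)` over invertible linear maps `T`. -/
noncomputable def MMstar {n : ℕ} (K : Set (Eu n)) : ℝ :=
  ⨅ T : Eu n ≃ₗ[ℝ] Eu n, meanNorm (T '' K) * meanNorm (polarBody (T '' K))

/-- The norm of `f : {-1,1}^m → X_K` in `L₂({-1,1}^m; X_K)` (uniform probability on `{-1,1}^m`). -/
noncomputable def l2norm {n m : ℕ} (K : Set (Eu n)) (f : (Fin m → ℤˣ) → Eu n) : ℝ :=
  Real.sqrt ((∑ ε, gauge K (f ε) ^ 2) / 2 ^ m)

/-- The Rademacher projection `R_m f = ∑ i, ε_i E[ε_i f]`. -/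
noncomputable def rademacher {n m : ℕ} (f : (Fin m → ℤˣ) → Eu n) (ε : Fin m → ℤˣ) : Eu n :=
  ∑ i, ((ε i : ℤ) : ℝ) • ((1 / 2 ^ m : ℝ) • ∑ δ : Fin m → ℤˣ, ((δ i : ℤ) : ℝ) • f δ)

/-- The `K`-convexity constant `sup_m ‖R_m‖` of `X_K`, as an extended nonnegative real. -/
noncomputable def kConv {n : ℕ} (K : Set (Eu n)) : ℝ≥0∞ :=
  ⨆ m : ℕ, sInf {c : ℝ≥0∞ | ∀ f : (Fin m → ℤˣ) → Eu n,
    ENNReal.ofReal (l2norm K (rademacher f)) ≤ c * ENNReal.ofReal (l2norm K f)}

/-! ### the first absolute moment of a sum of signs -/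

/-- sum of signs -/
def S {m : ℕ} (ε : Fin m → ℤˣ) : ℝ := ∑ i, ((ε i : ℤ) : ℝ)

lemma sum_cons {m : ℕ} (F : (Fin (m + 1) → ℤˣ) → ℝ) :
    ∑ ε, F ε = ∑ ε : Fin m → ℤˣ, (F (Fin.cons 1 ε) + F (Fin.cons (-1) ε)) := by
  rw [← (Fin.consEquiv (fun _ => ℤˣ)).sum_comp, Fintype.sum_prod_type, Finset.sum_comm]
  refine Finset.sum_congr rfl fun ε _ => ?_
  have : (Finset.univ : Finset ℤˣ) = {1, -1} := by decide
  rw [this, Finset.sum_pair (by decide)]
  rfl

lemma S_cons {m : ℕ} (a : ℤˣ) (ε : Fin m → ℤˣ) :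
    S (Fin.cons a ε : Fin (m + 1) → ℤˣ) = ((a : ℤ) : ℝ) + S ε := by
  unfold S
  rw [Fin.sum_univ_succ]
  simp

lemma moments (m : ℕ) : ∑ ε : Fin m → ℤˣ, S ε ^ 2 = 2 ^ m * m ∧
    ∑ ε : Fin m → ℤˣ, S ε ^ 4 = 2 ^ m * (3 * (m : ℝ) ^ 2 - 2 * m) := by
  induction m with
  | zero => simp [S]
  | succ m ih =>
    obtain ⟨h2, h4⟩ := ih
    constructor
    · rw [sum_cons]
      simp only [S_cons]
      have : ∀ ε : Fin m → ℤˣ, ((((1 : ℤˣ) : ℤ) : ℝ) + S ε) ^ 2 + ((((-1 : ℤˣ) : ℤ) : ℝ) + S ε) ^ 2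
          = 2 * S ε ^ 2 + 2 := by
        intro ε; push_cast; ring
      simp only [this, Finset.sum_add_distrib, ← Finset.mul_sum, h2]
      simp
      ring
    · rw [sum_cons]
      simp only [S_cons]
      have : ∀ ε : Fin m → ℤˣ, ((((1 : ℤˣ) : ℤ) : ℝ) + S ε) ^ 4 + ((((-1 : ℤˣ) : ℤ) : ℝ) + S ε) ^ 4
          = 2 * S ε ^ 4 + 12 * S ε ^ 2 + 2 := by
        intro ε; push_cast; ring
      simp only [this, Finset.sum_add_distrib, ← Finset.mul_sum, h2, h4]
      simp
      ring

/-- `E|S_m| ≥ sqrt(6 m) / 6` -/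
lemma abs_moment (m : ℕ) (hm : 0 < m) :
    Real.sqrt (6 * m) / 6 * 2 ^ m ≤ ∑ ε : Fin m → ℤˣ, |S ε| := by
  obtain ⟨h2, h4⟩ := moments m
  set l := Real.sqrt (6 * m) with hl
  have hm' : (0 : ℝ) < m := by exact_mod_cast hm
  have hl0 : 0 < l := Real.sqrt_pos.2 (by positivity)
  have hl2 : l ^ 2 = 6 * m := Real.sq_sqrt (by positivity)
  have key : ∀ s : ℝ, 2 * (s ^ 2 / l) - 2 * (s ^ 4 / l ^ 3) ≤ |s| := by
    intro s
    have e1 : s ^ 2 = |s| ^ 2 := (sq_abs s).symm
    have e2 : s ^ 4 = |s| ^ 4 := by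
      have : s ^ 4 = (s ^ 2) ^ 2 := by ring
      rw [this, e1]; ring
    rw [e1, e2]
    set t := |s| / l with ht
    have ht0 : 0 ≤ t := by positivity
    have hs : |s| = t * l := by rw [ht]; field_simp
    rw [hs]
    have e3 : 2 * ((t * l) ^ 2 / l) - 2 * ((t * l) ^ 4 / l ^ 3) = (2 * t ^ 2 - 2 * t ^ 4) * l := by
      field_simp
    rw [e3]
    apply mul_le_mul_of_nonneg_right _ hl0.le
    nlinarith [mul_nonneg ht0 (sq_nonneg (t - 1/2)), mul_nonneg ht0 (sq_nonneg (2 * t - 1)),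
      mul_nonneg ht0 (sq_nonneg (t - 3/5)), mul_nonneg ht0 ht0,
      mul_nonneg ht0 (mul_nonneg ht0 (sq_nonneg (t - 3/5)))]
  have h1 : ∑ ε : Fin m → ℤˣ, (2 * (S ε ^ 2 / l) - 2 * (S ε ^ 4 / l ^ 3)) ≤
      ∑ ε : Fin m → ℤˣ, |S ε| := Finset.sum_le_sum fun ε _ => key _
  refine le_trans ?_ h1
  rw [Finset.sum_sub_distrib, ← Finset.mul_sum, ← Finset.mul_sum, ← Finset.sum_div,
    ← Finset.sum_div, h2, h4]
  have hl3 : l ^ 3 = 6 * m * l := by rw [pow_succ, hl2]
  rw [hl3]
  have e4 : 2 * (2 ^ m * (m : ℝ) / l) - 2 * (2 ^ m * (3 * (m : ℝ) ^ 2 - 2 * m) / (6 * m * l))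
      = 2 ^ m * (m + 2/3) / l := by
    field_simp
    ring
  rw [e4, le_div_iff₀ hl0]
  have : l / 6 * 2 ^ m * l = 2 ^ m * m := by
    have : l / 6 * 2 ^ m * l = l ^ 2 * 2 ^ m / 6 := by ring
    rw [this, hl2]; ring
  rw [this]
  have : (0 : ℝ) < 2 ^ m := by positivity
  nlinarith


/-! ### the body -/

/-- `ℓ₁` norm of the first `k` coordinates -/
def p1 {n : ℕ} (k : ℕ) (x : Eu n) : ℝ := ∑ i : Fin n, if i.val < k then |x i| else 0

/-- Euclidean unit ball intersected with the cylinder over the unit ball of `ℓ₁^k` -/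
def body (n k : ℕ) : Set (Eu n) := {x | ‖x‖ ≤ 1 ∧ p1 k x ≤ 1}

lemma p1_nonneg {n : ℕ} (k : ℕ) (x : Eu n) : 0 ≤ p1 k x :=
  Finset.sum_nonneg fun i _ => by split_ifs <;> positivity

lemma p1_smul {n : ℕ} (k : ℕ) (a : ℝ) (x : Eu n) : p1 k (a • x) = |a| * p1 k x := by
  unfold p1
  rw [Finset.mul_sum]
  refine Finset.sum_congr rfl fun i _ => ?_
  split_ifs
  · simp [abs_mul]
  · simp

lemma p1_add {n : ℕ} (k : ℕ) (x y : Eu n) : p1 k (x + y) ≤ p1 k x + p1 k y := by
  unfold p1
  rw [← Finset.sum_add_distrib]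
  refine Finset.sum_le_sum fun i _ => ?_
  split_ifs
  · exact abs_add_le _ _
  · simp

lemma p1_continuous {n : ℕ} (k : ℕ) : Continuous (p1 k : Eu n → ℝ) := by
  unfold p1
  refine continuous_finsetSum _ fun i _ => ?_
  split_ifs
  · exact (PiLp.continuous_apply 2 _ i).abs
  · exact continuous_const

lemma abs_coord_le {n : ℕ} (x : Eu n) (i : Fin n) : |x i| ≤ ‖x‖ := by
  have := PiLp.norm_apply_le x i
  simpa using this

lemma p1_le {n : ℕ} (k : ℕ) (x : Eu n) : p1 k x ≤ n * ‖x‖ := by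
  unfold p1
  calc _ ≤ ∑ i : Fin n, ‖x‖ := Finset.sum_le_sum fun i _ => by
        split_ifs
        · exact abs_coord_le x i
        · exact norm_nonneg x
    _ = _ := by simp

lemma body_symm (n k : ℕ) : IsSymBody (body n k) := by
  refine ⟨?_, ?_, ?_, ?_⟩
  · intro x hx y hy a b ha hb hab
    refine ⟨?_, ?_⟩
    · calc ‖a • x + b • y‖ ≤ ‖a • x‖ + ‖b • y‖ := norm_add_le _ _
        _ = a * ‖x‖ + b * ‖y‖ := by rw [norm_smul, norm_smul, Real.norm_of_nonneg ha,
            Real.norm_of_nonneg hb]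
        _ ≤ a * 1 + b * 1 := by
            have := hx.1; have := hy.1
            gcongr
        _ = 1 := by linarith
    · calc p1 k (a • x + b • y) ≤ p1 k (a • x) + p1 k (b • y) := p1_add _ _ _
        _ = a * p1 k x + b * p1 k y := by rw [p1_smul, p1_smul, abs_of_nonneg ha, abs_of_nonneg hb]
        _ ≤ a * 1 + b * 1 := by
            have := hx.2; have := hy.2
            gcongr
        _ = 1 := by linarith
  · have h1 : IsCompact (closedBall (0 : Eu n) 1) := isCompact_closedBall 0 1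
    have h2 : IsClosed {x : Eu n | p1 k x ≤ 1} := isClosed_le (p1_continuous k) continuous_const
    have : body n k = closedBall (0 : Eu n) 1 ∩ {x : Eu n | p1 k x ≤ 1} := by
      ext x; simp [body]
    rw [this]
    exact h1.inter_right h2
  · refine ⟨0, mem_interior.2 ⟨ball 0 (1 / (n + 1)), ?_, isOpen_ball, ?_⟩⟩
    · intro x hx
      rw [mem_ball_zero_iff] at hx
      have hn : (0 : ℝ) < n + 1 := by positivity
      rw [lt_div_iff₀ hn] at hx
      have h0 := norm_nonneg x
      have hn0 : (0 : ℝ) ≤ n := by positivity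
      refine ⟨by nlinarith, (p1_le k x).trans (by nlinarith)⟩
    · rw [mem_ball_zero_iff, norm_zero]; positivity
  · intro x hx
    refine ⟨by rw [norm_neg]; exact hx.1, ?_⟩
    have := p1_smul k (-1) x
    rw [neg_one_smul] at this
    rw [this]; simpa using hx.2

lemma gauge_body_le (n k : ℕ) (x : Eu n) : gauge (body n k) x ≤ max ‖x‖ (p1 k x) := by
  set a := max ‖x‖ (p1 k x) with ha
  have ha0 : 0 ≤ a := le_max_of_le_left (norm_nonneg x)
  refine gauge_le_of_mem ha0 ?_
  rcases ha0.eq_or_lt with h | h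
  · have : ‖x‖ ≤ 0 := by rw [h]; exact le_max_left _ _
    have hx : x = 0 := by simpa using this
    refine ⟨0, ⟨by simp, by simp [p1]⟩, by simp [hx]⟩
  · refine ⟨a⁻¹ • x, ⟨?_, ?_⟩, ?_⟩
    · rw [norm_smul, norm_inv, Real.norm_of_nonneg ha0, inv_mul_le_one₀ h]
      exact le_max_left _ _
    · rw [p1_smul, abs_of_pos (inv_pos.2 h), inv_mul_le_one₀ h]
      exact le_max_right _ _
    · simp only [smul_smul, mul_inv_cancel₀ h.ne', one_smul]

lemma le_gauge_body (n k : ℕ) (x : Eu n) : p1 k x ≤ gauge (body n k) x := by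
  have habs : Absorbent ℝ (body n k) :=
    (absorbent_nhds_zero (mem_interior_iff_mem_nhds.1 (by
      rw [mem_interior]
      refine ⟨ball 0 (1 / (n + 1)), ?_, isOpen_ball, ?_⟩
      · intro x hx
        rw [mem_ball_zero_iff] at hx
        have hn : (0 : ℝ) < n + 1 := by positivity
        rw [lt_div_iff₀ hn] at hx
        have h0 := norm_nonneg x
        have hn0 : (0 : ℝ) ≤ n := by positivity
        exact ⟨by nlinarith, (p1_le k x).trans (by nlinarith)⟩
      · rw [mem_ball_zero_iff, norm_zero]; positivity)))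
  refine le_csInf habs.gauge_set_nonempty ?_
  rintro r ⟨hr, y, hy, rfl⟩
  simp only
  rw [p1_smul, abs_of_pos hr]
  have := hy.2
  nlinarith [hr]

lemma gauge_polar_le (n k : ℕ) (x : Eu n) : gauge (polarBody (body n k)) x ≤ ‖x‖ := by
  refine gauge_le_of_mem (norm_nonneg x) ?_
  rcases (norm_nonneg x).eq_or_lt with h | h
  · have hx : x = 0 := by simpa using h.symm
    refine ⟨0, fun y _ => by simp, by simp [hx]⟩
  · refine ⟨‖x‖⁻¹ • x, fun y hy => ?_, ?_⟩
    · rw [inner_smul_right]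
      have h1 := real_inner_le_norm y x
      have h2 := hy.1
      rw [inv_mul_le_one₀ h]
      nlinarith
    · simp only [smul_smul, mul_inv_cancel₀ h.ne', one_smul]


/-! ### the sphere -/

/-- restriction of a linear isometry to the unit sphere -/
noncomputable def sphMap {n : ℕ} (L : Eu n ≃ₗᵢ[ℝ] Eu n) (x : sphere (0 : Eu n) 1) : sphere (0 : Eu n) 1 :=
  ⟨L x, by simp⟩

lemma sphMap_continuous {n : ℕ} (L : Eu n ≃ₗᵢ[ℝ] Eu n) : Continuous (sphMap L) :=
  (L.continuous.comp continuous_subtype_val).subtype_mk _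

lemma sphMap_mp {n : ℕ} (L : Eu n ≃ₗᵢ[ℝ] Eu n) :
    MeasurePreserving (sphMap L) (volume : Measure (Eu n)).toSphere
      (volume : Measure (Eu n)).toSphere := by
  refine ⟨(sphMap_continuous L).measurable, ?_⟩
  ext s hs
  rw [Measure.map_apply (sphMap_continuous L).measurable hs,
    Measure.toSphere_apply' _ ((sphMap_continuous L).measurable hs), Measure.toSphere_apply' _ hs]
  congr 1
  have h1 : (Ioo (0 : ℝ) 1 • ((↑) '' (sphMap L ⁻¹' s)) : Set (Eu n)) =
      L ⁻¹' (Ioo (0 : ℝ) 1 • ((↑) '' s)) := by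
    ext x
    simp only [mem_smul, mem_preimage, mem_image]
    constructor
    · rintro ⟨a, ha, _, ⟨y, hy, rfl⟩, rfl⟩
      exact ⟨a, ha, L y, ⟨sphMap L y, hy, rfl⟩, by rw [map_smul]⟩
    · rintro ⟨a, ha, _, ⟨y, hy, rfl⟩, h⟩
      refine ⟨a, ha, L.symm y, ⟨⟨L.symm y, by simp⟩, ?_, rfl⟩, ?_⟩
      · have : sphMap L ⟨L.symm y, by simp⟩ = y := by
          apply Subtype.ext
          simp [sphMap]
        rw [this]; exact hy
      · apply L.injective
        rw [map_smul, L.apply_symm_apply, h]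
  rw [h1]
  exact (L.measurePreserving).measure_preimage_equiv (f := L.toHomeomorph.toMeasurableEquiv) _

/-- normalised surface measure -/
noncomputable def nu (n : ℕ) : Measure (sphere (0 : Eu n) 1) :=
  ((volume : Measure (Eu n)).toSphere univ)⁻¹ • (volume : Measure (Eu n)).toSphere

lemma nu_prob {n : ℕ} (hn : 0 < n) : IsProbabilityMeasure (nu n) := by
  have : Nontrivial (Eu n) := by
    have : Nonempty (Fin n) := ⟨⟨0, hn⟩⟩
    infer_instance
  refine ⟨?_⟩
  unfold nu
  rw [Measure.smul_apply, smul_eq_mul]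
  refine ENNReal.inv_mul_cancel ?_ (measure_ne_top _ _)
  rw [Ne, Measure.measure_univ_eq_zero]
  exact Measure.toSphere_ne_zero _

lemma nu_mp {n : ℕ} (L : Eu n ≃ₗᵢ[ℝ] Eu n) : MeasurePreserving (sphMap L) (nu n) (nu n) :=
  (sphMap_mp L).smul_measure _

lemma cont_coord {n : ℕ} (i : Fin n) : Continuous fun x : sphere (0 : Eu n) 1 => (x : Eu n) i :=
  (PiLp.continuous_apply 2 _ i).comp continuous_subtype_val

lemma cont_sq {n : ℕ} (i : Fin n) :
    Continuous fun x : sphere (0 : Eu n) 1 => ((x : Eu n) i) ^ 2 := (cont_coord i).pow 2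

lemma integrable_cont {n : ℕ} (hn : 0 < n) {f : sphere (0 : Eu n) 1 → ℝ} (hf : Continuous f) :
    Integrable f (nu n) := by
  have := nu_prob hn
  exact hf.integrable_of_hasCompactSupport (HasCompactSupport.of_compactSpace f)

lemma int_sq_eq {n : ℕ} (i j : Fin n) :
    ∫ x, ((x : Eu n) i) ^ 2 ∂(nu n) = ∫ x, ((x : Eu n) j) ^ 2 ∂(nu n) := by
  set L : Eu n ≃ₗᵢ[ℝ] Eu n := LinearIsometryEquiv.piLpCongrLeft 2 ℝ ℝ (Equiv.swap i j) with hL
  have h0 := (nu_mp L).map_eq
  conv_rhs => rw [← h0]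
  rw [integral_map (sphMap_continuous L).measurable.aemeasurable
    (cont_sq j).aestronglyMeasurable]
  refine integral_congr_ae (Filter.Eventually.of_forall fun x => ?_)
  simp [sphMap, hL, LinearIsometryEquiv.piLpCongrLeft_apply, Equiv.piCongrLeft'_apply]

lemma int_sq {n : ℕ} (i : Fin n) : ∫ x, ((x : Eu n) i) ^ 2 ∂(nu n) = 1 / n := by
  have hn : 0 < n := i.pos
  have := nu_prob hn
  have h1 : ∑ j : Fin n, ∫ x, ((x : Eu n) j) ^ 2 ∂(nu n) = 1 := by
    rw [← integral_finsetSum _ fun j _ => integrable_cont hn (cont_sq j)]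
    have : ∀ x : sphere (0 : Eu n) 1, ∑ j : Fin n, ((x : Eu n) j) ^ 2 = 1 := by
      intro x
      have h2 : ‖(x : Eu n)‖ = 1 := by simp
      have h3 := EuclideanSpace.real_norm_sq_eq (x : Eu n)
      rw [h2] at h3
      rw [← h3]; norm_num
    simp [this]
  have h2 : ∑ j : Fin n, ∫ x, ((x : Eu n) j) ^ 2 ∂(nu n) =
      n * ∫ x, ((x : Eu n) i) ^ 2 ∂(nu n) := by
    rw [Finset.sum_congr rfl fun j _ => int_sq_eq j i]
    simp
  rw [h2] at h1
  have : (0 : ℝ) < n := by exact_mod_cast hn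
  field_simp
  linarith

lemma int_abs {n : ℕ} (i : Fin n) : ∫ x, |(x : Eu n) i| ∂(nu n) ≤ 1 / Real.sqrt n := by
  have hn : 0 < n := i.pos
  have := nu_prob hn
  have hn' : (0 : ℝ) < n := by exact_mod_cast hn
  set r := Real.sqrt n with hr
  have hr0 : 0 < r := Real.sqrt_pos.2 hn'
  have hr2 : r ^ 2 = n := Real.sq_sqrt hn'.le
  have h1 : ∫ x, |(x : Eu n) i| ∂(nu n) ≤ ∫ x, (r / 2 * ((x : Eu n) i) ^ 2 + 1 / (2 * r)) ∂(nu n) := by
    refine integral_mono (integrable_cont hn (cont_coord i).abs)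
      (integrable_cont hn ((continuous_const.mul (cont_sq i)).add continuous_const)) ?_
    intro x
    simp only
    set t := (x : Eu n) i with ht
    have e1 : r / 2 * t ^ 2 + 1 / (2 * r) - |t| = (r * |t| - 1) ^ 2 / (2 * r) := by
      rw [← sq_abs t]
      field_simp
      ring
    have e2 : 0 ≤ (r * |t| - 1) ^ 2 / (2 * r) := by positivity
    linarith
  refine h1.trans (le_of_eq ?_)
  rw [integral_add ((integrable_cont hn (cont_sq i)).const_mul _) (integrable_const _),
    integral_const_mul, int_sq, ← hr2]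
  simp
  field_simp
  norm_num

lemma meanNorm_eq {n : ℕ} (K : Set (Eu n)) : meanNorm K = ∫ x, gauge K (x : Eu n) ∂(nu n) := rfl

lemma gauge_cont {n : ℕ} {K : Set (Eu n)} (hc : Convex ℝ K) (h0 : K ∈ nhds (0 : Eu n)) :
    Continuous fun x : sphere (0 : Eu n) 1 => gauge K (x : Eu n) :=
  (continuous_gauge hc h0).comp continuous_subtype_val

lemma body_nhds (n k : ℕ) : body n k ∈ nhds (0 : Eu n) := by
  refine Filter.mem_of_superset (ball_mem_nhds 0 (ε := 1 / (n + 1)) (by positivity)) ?_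
  intro x hx
  rw [mem_ball_zero_iff] at hx
  have hn : (0 : ℝ) < n + 1 := by positivity
  rw [lt_div_iff₀ hn] at hx
  have h0 := norm_nonneg x
  have hn0 : (0 : ℝ) ≤ n := by positivity
  exact ⟨by nlinarith, (p1_le k x).trans (by nlinarith)⟩

lemma meanNorm_nonneg {n : ℕ} (K : Set (Eu n)) : 0 ≤ meanNorm K := by
  rw [meanNorm_eq]
  exact integral_nonneg fun x => gauge_nonneg _

lemma meanNorm_body {n : ℕ} (hn : 0 < n) (k : ℕ) : meanNorm (body n k) ≤ 1 + k / Real.sqrt n := by
  have := nu_prob hn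
  rw [meanNorm_eq]
  have hp : Continuous fun x : sphere (0 : Eu n) 1 => p1 k (x : Eu n) :=
    (p1_continuous k).comp continuous_subtype_val
  have h1 : ∫ x, gauge (body n k) (x : Eu n) ∂(nu n) ≤ ∫ x, (1 + p1 k (x : Eu n)) ∂(nu n) := by
    refine integral_mono (integrable_cont hn (gauge_cont (body_symm n k).convex (body_nhds n k)))
      (integrable_cont hn (continuous_const.add hp)) ?_
    intro x
    refine (gauge_body_le n k _).trans ?_
    have h2 : ‖(x : Eu n)‖ = 1 := by simp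
    rw [h2]
    have := p1_nonneg k (x : Eu n)
    exact max_le (by linarith) (by linarith)
  refine h1.trans ?_
  rw [integral_add (integrable_const _) (integrable_cont hn hp)]
  simp only [integral_const, probReal_univ, smul_eq_mul, mul_one]
  have h3 : ∫ x, p1 k (x : Eu n) ∂(nu n) ≤ k / Real.sqrt n := by
    unfold p1
    rw [integral_finsetSum]
    · calc _ ≤ ∑ i : Fin n, (if i.val < k then 1 / Real.sqrt n else 0) := by
            refine Finset.sum_le_sum fun i _ => ?_
            split_ifs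
            · exact int_abs i
            · simp
        _ = (Finset.univ.filter fun i : Fin n => i.val < k).card * (1 / Real.sqrt n) := by
            rw [← Finset.sum_filter]; simp
        _ ≤ k * (1 / Real.sqrt n) := by
            apply mul_le_mul_of_nonneg_right _ (by positivity)
            have : (Finset.univ.filter fun i : Fin n => i.val < k).card ≤ (Finset.range k).card := by
              refine Finset.card_le_card_of_injOn (fun i => i.val) ?_ ?_
              · intro i hi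
                simpa using hi
              · intro i _ j _ h
                exact Fin.ext h
            rw [Finset.card_range] at this
            exact_mod_cast this
        _ = _ := by ring
    · intro i _
      split_ifs
      · exact integrable_cont hn (cont_coord i).abs
      · simp
  linarith

lemma polar_convex {n : ℕ} (K : Set (Eu n)) : Convex ℝ (polarBody K) := by
  intro x hx y hy a b ha hb hab z hz
  rw [inner_add_right, inner_smul_right, inner_smul_right]
  have h1 := hx z hz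
  have h2 := hy z hz
  nlinarith

lemma polar_nhds (n k : ℕ) : polarBody (body n k) ∈ nhds (0 : Eu n) := by
  refine Filter.mem_of_superset (ball_mem_nhds 0 one_pos) ?_
  intro x hx y hy
  rw [mem_ball_zero_iff] at hx
  have h1 := real_inner_le_norm y x
  have h2 := hy.1
  nlinarith [norm_nonneg x, norm_nonneg y]

lemma meanNorm_polar {n : ℕ} (hn : 0 < n) (k : ℕ) : meanNorm (polarBody (body n k)) ≤ 1 := by
  have := nu_prob hn
  rw [meanNorm_eq]
  have h1 : ∫ x, gauge (polarBody (body n k)) (x : Eu n) ∂(nu n) ≤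
      ∫ _x : sphere (0 : Eu n) 1, (1 : ℝ) ∂(nu n) := by
    refine integral_mono (integrable_cont hn (gauge_cont (polar_convex _) (polar_nhds n k)))
      (integrable_const _) ?_
    intro x
    refine (gauge_polar_le n k _).trans ?_
    simp
  simpa using h1

lemma MMstar_body {n : ℕ} (hn : 0 < n) (k : ℕ) : MMstar (body n k) ≤ 1 + k / Real.sqrt n := by
  have hb : BddBelow (range fun T : Eu n ≃ₗ[ℝ] Eu n =>
      meanNorm (T '' body n k) * meanNorm (polarBody (T '' body n k))) :=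
    ⟨0, by rintro _ ⟨T, rfl⟩; exact mul_nonneg (meanNorm_nonneg _) (meanNorm_nonneg _)⟩
  refine (ciInf_le hb (LinearEquiv.refl ℝ (Eu n))).trans ?_
  have : (fun x => (LinearEquiv.refl ℝ (Eu n)) x) '' body n k = body n k := by
    ext x; simp
  rw [this]
  calc meanNorm (body n k) * meanNorm (polarBody (body n k)) ≤ (1 + k / Real.sqrt n) * 1 :=
        mul_le_mul (meanNorm_body hn k) (meanNorm_polar hn k) (meanNorm_nonneg _) (by positivity)
    _ = _ := by ring

/-! ### the lower bound for the `K`-convexity constant -/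

/-- indexing of the sign vectors by the first `2^m` coordinates -/
lemma exists_index (m n : ℕ) (h : 2 ^ m ≤ n) :
    ∃ e : (Fin m → ℤˣ) → Fin n, Function.Injective e ∧ ∀ ε, (e ε).val < 2 ^ m := by
  have hc : Fintype.card (Fin m → ℤˣ) = 2 ^ m := by simp
  let e0 := (Fintype.equivFin (Fin m → ℤˣ))
  refine ⟨fun ε => ⟨(e0 ε).val, lt_of_lt_of_le (e0 ε).isLt (by rw [hc]; exact h)⟩, ?_, ?_⟩
  · intro ε δ h
    apply e0.injective
    apply Fin.ext
    simpa using h
  · intro ε
    have := (e0 ε).isLt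
    simp only
    omega

lemma kConv_body (m n : ℕ) (hm : 0 < m) (h : 2 ^ m ≤ n) :
    ENNReal.ofReal (Real.sqrt (6 * m) / 6) ≤ kConv (body n (2 ^ m)) := by
  obtain ⟨e, he, hk⟩ := exists_index m n h
  unfold kConv
  refine le_trans ?_ (le_iSup _ m)
  refine le_sInf fun c hc => ?_
  set f : (Fin m → ℤˣ) → Eu n := fun ε => EuclideanSpace.single (e ε) (1 : ℝ) with hf
  have hcf := hc f
  have hp : (0 : ℝ) < 2 ^ m := by positivity
  -- norm of f
  have h1 : l2norm (body n (2 ^ m)) f ≤ 1 := by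
    unfold l2norm
    rw [Real.sqrt_le_one, div_le_one hp]
    have hone : ∀ ε, gauge (body n (2 ^ m)) (f ε) ≤ 1 := by
      intro ε
      refine (gauge_body_le _ _ _).trans (max_le ?_ ?_)
      · simp [hf]
      · unfold p1
        rw [Finset.sum_eq_single (e ε)]
        · split_ifs <;> simp [hf]
        · intro j _ hj
          split_ifs <;> simp [hf, hj]
        · simp
    calc ∑ ε, gauge (body n (2 ^ m)) (f ε) ^ 2 ≤ ∑ _ε : Fin m → ℤˣ, (1 : ℝ) :=
          Finset.sum_le_sum fun ε _ => by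
            have := hone ε
            have h0 := gauge_nonneg (s := body n (2 ^ m)) (f ε)
            nlinarith
      _ = 2 ^ m := by simp
  -- value of the projection
  have h2 : ∀ ε, Real.sqrt (6 * m) / 6 ≤ gauge (body n (2 ^ m)) (rademacher f ε) := by
    intro ε
    refine le_trans ?_ (le_gauge_body _ _ _)
    have h3 : ∀ δ, (rademacher f ε) (e δ) = 1 / 2 ^ m * S (ε * δ) := by
      intro δ
      unfold rademacher S
      simp only [WithLp.ofLp_sum, WithLp.ofLp_smul, Finset.sum_apply, Pi.smul_apply, smul_eq_mul, hf]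
      rw [Finset.mul_sum]
      refine Finset.sum_congr rfl fun i _ => ?_
      rw [Finset.sum_eq_single δ]
      · simp
        ring
      · intro δ' _ hne
        have : e δ ≠ e δ' := fun h => hne (he h).symm
        simp [this]
      · simp
    calc Real.sqrt (6 * m) / 6 = 1 / 2 ^ m * (Real.sqrt (6 * m) / 6 * 2 ^ m) := by
          field_simp
      _ ≤ 1 / 2 ^ m * ∑ δ : Fin m → ℤˣ, |S δ| :=
          mul_le_mul_of_nonneg_left (abs_moment m hm) (by positivity)
      _ = 1 / 2 ^ m * ∑ δ : Fin m → ℤˣ, |S (ε * δ)| := by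
          rw [← Equiv.sum_comp (Equiv.mulLeft ε) (fun δ : Fin m → ℤˣ => |S δ|)]
          rfl
      _ = ∑ δ : Fin m → ℤˣ, |(rademacher f ε) (e δ)| := by
          rw [Finset.mul_sum]
          refine Finset.sum_congr rfl fun δ _ => ?_
          rw [h3, abs_mul, abs_of_pos (show (0 : ℝ) < 1 / 2 ^ m by positivity)]
      _ = ∑ i ∈ Finset.univ.image e, |(rademacher f ε) i| := by
          rw [Finset.sum_image fun _ _ _ _ h => he h]
      _ = ∑ i ∈ Finset.univ.image e, (if i.val < 2 ^ m then |(rademacher f ε) i| else 0) := by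
          refine Finset.sum_congr rfl fun i hi => ?_
          obtain ⟨δ, _, rfl⟩ := Finset.mem_image.1 hi
          rw [if_pos (hk δ)]
      _ ≤ p1 (2 ^ m) (rademacher f ε) :=
          Finset.sum_le_sum_of_subset_of_nonneg (Finset.subset_univ _) fun i _ _ => by
            split_ifs <;> positivity
  have h4 : Real.sqrt (6 * m) / 6 ≤ l2norm (body n (2 ^ m)) (rademacher f) := by
    unfold l2norm
    apply Real.le_sqrt_of_sq_le
    rw [le_div_iff₀ hp]
    calc (Real.sqrt (6 * m) / 6) ^ 2 * 2 ^ m = ∑ _ε : Fin m → ℤˣ, (Real.sqrt (6 * m) / 6) ^ 2 := by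
          simp; ring
      _ ≤ _ := Finset.sum_le_sum fun ε _ => by
          have := h2 ε
          have h0 : 0 ≤ Real.sqrt (6 * m) / 6 := by positivity
          gcongr
  calc ENNReal.ofReal (Real.sqrt (6 * m) / 6) ≤ ENNReal.ofReal (l2norm (body n (2 ^ m)) (rademacher f)) :=
        ENNReal.ofReal_le_ofReal h4
    _ ≤ c * ENNReal.ofReal (l2norm (body n (2 ^ m)) f) := hcf
    _ ≤ c * ENNReal.ofReal 1 := by gcongr
    _ = c := by simp

/-- **The negation of the question**, with more: for all `C` and all `ε > 0` there are `n` and a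
symmetric convex body `K ⊂ ℝⁿ` with `MM*(K) ≤ 1 + ε` and `K(X_K) > C · MM*(K)`. -/
theorem result : ∀ C ε : ℝ, 0 < ε → ∃ (n : ℕ) (K : Set (Eu n)), IsSymBody K ∧
    MMstar K ≤ 1 + ε ∧ ENNReal.ofReal (C * MMstar K) < kConv K := by
  intro C ε hε
  obtain ⟨m, hm⟩ := exists_nat_gt (6 * (|C| * (1 + ε) + 1) ^ 2)
  have hm0 : 0 < m := by
    have : (0 : ℝ) < m := lt_of_le_of_lt (by positivity) hm
    exact_mod_cast this
  obtain ⟨n, hn⟩ := exists_nat_gt (max ((2 : ℝ) ^ m) (((2 : ℝ) ^ m / ε) ^ 2))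
  have hn1 : (2 : ℝ) ^ m < n := (le_max_left _ _).trans_lt hn
  have hn2 : ((2 : ℝ) ^ m / ε) ^ 2 < n := (le_max_right _ _).trans_lt hn
  have hnm : 2 ^ m ≤ n := by
    have : (2 : ℝ) ^ m < n := hn1
    have h : ((2 ^ m : ℕ) : ℝ) < n := by push_cast; exact this
    exact le_of_lt (by exact_mod_cast h)
  have hn0 : 0 < n := lt_of_lt_of_le (by positivity) hnm
  have hMM : MMstar (body n (2 ^ m)) ≤ 1 + ε := by
    refine (MMstar_body hn0 _).trans ?_
    have h1 : (2 : ℝ) ^ m / ε ≤ Real.sqrt n := Real.le_sqrt_of_sq_le hn2.le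
    have hs : 0 < Real.sqrt n := Real.sqrt_pos.2 (by exact_mod_cast hn0)
    rw [div_le_iff₀ hε] at h1
    have : ((2 ^ m : ℕ) : ℝ) / Real.sqrt n ≤ ε := by
      rw [div_le_iff₀ hs]; push_cast; linarith
    linarith
  have hMM0 : 0 ≤ MMstar (body n (2 ^ m)) :=
    Real.iInf_nonneg fun T => mul_nonneg (meanNorm_nonneg _) (meanNorm_nonneg _)
  refine ⟨n, body n (2 ^ m), body_symm _ _, hMM, lt_of_lt_of_le ?_ (kConv_body m n hm0 hnm)⟩
  have h3 : C * MMstar (body n (2 ^ m)) ≤ |C| * (1 + ε) :=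
    (mul_le_mul_of_nonneg_right (le_abs_self C) hMM0).trans
      (mul_le_mul_of_nonneg_left hMM (abs_nonneg C))
  have h4 : |C| * (1 + ε) + 1 ≤ Real.sqrt (6 * m) / 6 := by
    rw [le_div_iff₀ (by norm_num)]
    apply Real.le_sqrt_of_sq_le
    nlinarith
  have h5 : 0 ≤ |C| * (1 + ε) := by positivity
  exact (ENNReal.ofReal_lt_ofReal_iff (by linarith)).2 (by linarith)

end Pool.Agent.Results.MP_1453e0_an.KConvexVsMM
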